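import Mathlib

/-!
Covering numbers of the points with many bad scales.
-/

set_option autoImplicit false

open Filter Topology Set

namespace Pool.Agent.Q99.WS

/-- norm of the class of a real number -/
lemma norm_coe_le (t : ℝ) : ‖((t : ℝ) : UnitAddCircle)‖ ≤ |t| := by
  rw [UnitAddCircle.norm_eq]
  have h := round_le t 0
  rwa [Int.cast_zero, sub_zero] at h

/-- a representative of smallest absolute value -/
lemma exists_rep (z : UnitAddCircle) : ∃ t : ℝ, ((t : ℝ) : UnitAddCircle) = z ∧ |t| = ‖z‖ := by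
  obtain ⟨t, rfl⟩ : ∃ d : ℝ, (d : UnitAddCircle) = z := QuotientAddGroup.mk_surjective z
  refine ⟨t - round t, ?_, (UnitAddCircle.norm_eq).symm⟩
  rw [AddCircle.coe_sub]
  have h : ((round t : ℝ) : UnitAddCircle) = 0 := by
    rw [AddCircle.coe_eq_zero_iff]
    exact ⟨round t, by rw [zsmul_eq_mul, mul_one]⟩
  rw [h, sub_zero]

lemma halve (x0 x : UnitAddCircle) {ρ : ℝ} (h : dist x x0 ≤ 2 * ρ) :
    dist x (x0 + ((ρ : ℝ) : UnitAddCircle)) ≤ ρ ∨ dist x (x0 - ((ρ : ℝ) : UnitAddCircle)) ≤ ρ := by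
  obtain ⟨t, ht, ht2⟩ := exists_rep (x - x0)
  rw [dist_eq_norm] at h
  rw [← ht2] at h
  have hx : x = x0 + ((t : ℝ) : UnitAddCircle) := by rw [ht]; abel
  rw [abs_le] at h
  rcases le_total 0 t with h0 | h0
  · left
    rw [dist_eq_norm, hx]
    have e : x0 + ((t : ℝ) : UnitAddCircle) - (x0 + ((ρ : ℝ) : UnitAddCircle)) =
        ((t - ρ : ℝ) : UnitAddCircle) := by rw [AddCircle.coe_sub]; abel
    rw [e]
    refine (norm_coe_le _).trans ?_
    rw [abs_le]; constructor <;> linarith
  · right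
    rw [dist_eq_norm, hx]
    have e : x0 + ((t : ℝ) : UnitAddCircle) - (x0 - ((ρ : ℝ) : UnitAddCircle)) =
        ((t + ρ : ℝ) : UnitAddCircle) := by rw [AddCircle.coe_add]; abel
    rw [e]
    refine (norm_coe_le _).trans ?_
    rw [abs_le]; constructor <;> linarith

lemma ball_cover (d : ℕ) : ∀ (x0 : UnitAddCircle) (ρ : ℝ), ∃ F : Finset UnitAddCircle,
    F.card ≤ 2 ^ d ∧ ∀ x, dist x x0 ≤ 2 ^ d * ρ → ∃ y ∈ F, dist x y ≤ ρ := by
  classical
  induction d with
  | zero =>
    intro x0 ρ
    exact ⟨{x0}, by simp, fun x hx => ⟨x0, by simp, by simpa using hx⟩⟩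
  | succ d ih =>
    intro x0 ρ
    obtain ⟨F1, h1, h1'⟩ := ih (x0 + ((2 ^ d * ρ : ℝ) : UnitAddCircle)) ρ
    obtain ⟨F2, h2, h2'⟩ := ih (x0 - ((2 ^ d * ρ : ℝ) : UnitAddCircle)) ρ
    refine ⟨F1 ∪ F2, ?_, fun x hx => ?_⟩
    · refine (Finset.card_union_le _ _).trans ?_
      rw [pow_succ]; omega
    · rcases halve x0 x (ρ := 2 ^ d * ρ) (by rw [← mul_assoc, ← pow_succ']; exact hx) with h | h
      · obtain ⟨y, hy, hxy⟩ := h1' x h
        exact ⟨y, Finset.mem_union_left _ hy, hxy⟩
      · obtain ⟨y, hy, hxy⟩ := h2' x h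
        exact ⟨y, Finset.mem_union_right _ hy, hxy⟩

/-- either many separated points or a small cover -/
lemma greedy {X : Type} [MetricSpace X] (S : Set X) (ρ : ℝ) (m : ℕ) :
    (∃ f : Fin m → X, (∀ i, f i ∈ S) ∧ ∀ i j, i ≠ j → ρ < dist (f i) (f j)) ∨
    ∃ F : Finset X, F.card ≤ m ∧ ∀ x ∈ S, ∃ y ∈ F, dist x y ≤ ρ := by
  classical
  induction m with
  | zero => exact Or.inl ⟨fun i => i.elim0, fun i => i.elim0, fun i => i.elim0⟩
  | succ m ih =>
    rcases ih with ⟨f, hf, hsep⟩ | ⟨F, hF, hcov⟩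
    · by_cases h : ∀ x ∈ S, ∃ i, dist x (f i) ≤ ρ
      · right
        refine ⟨Finset.univ.image f, ?_, fun x hx => ?_⟩
        · refine Finset.card_image_le.trans ?_
          rw [Finset.card_univ, Fintype.card_fin]; omega
        · obtain ⟨i, hi⟩ := h x hx
          exact ⟨f i, Finset.mem_image_of_mem _ (Finset.mem_univ i), hi⟩
      · left
        push Not at h
        obtain ⟨x, hx, hxf⟩ := h
        refine ⟨Fin.cons x f, ?_, ?_⟩
        · intro i
          refine Fin.cases ?_ (fun i => ?_) i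
          · simpa using hx
          · simpa using hf i
        · intro i j
          refine Fin.cases ?_ (fun i => ?_) i
          · refine Fin.cases ?_ (fun j => ?_) j
            · intro h; exact absurd rfl h
            · intro _; simpa using hxf j
          · refine Fin.cases ?_ (fun j => ?_) j
            · intro _
              rw [dist_comm]
              simpa using hxf i
            · intro h
              simp only [Fin.cons_succ]
              exact hsep i j fun e => h (by rw [e])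
    · exact Or.inr ⟨F, hF.trans (Nat.le_succ m), hcov⟩

open Classical in
/-- **The recursion.** -/
theorem recursion (Bd : ℕ → Set UnitAddCircle) {m l k1 : ℕ} (hl : 1 ≤ l)
    (hB : ∀ k, k1 ≤ k → ∀ x0 : UnitAddCircle, ∃ F : Finset UnitAddCircle, F.card ≤ m ∧
      ∀ x ∈ Bd (k + l), dist x x0 ≤ (1 / 2 : ℝ) ^ k → ∃ y ∈ F, dist x y ≤ (1 / 2 : ℝ) ^ (k + l))
    {lam w : ℝ} (hlam : 2 ≤ lam) (hw0 : 0 < w) (hw1 : w ≤ 1)
    (hcond : m / (lam * w) ^ l + 2 / lam ≤ 1) (d : ℕ) :
    ∀ (k b : ℕ) (x0 : UnitAddCircle), k1 ≤ k → ∃ F : Finset UnitAddCircle,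
      (F.card : ℝ) ≤ lam ^ d * w ^ b ∧ ∀ x, dist x x0 ≤ (1 / 2 : ℝ) ^ k →
        b ≤ ((Finset.Ico (k + l) (k + d)).filter fun j => x ∈ Bd j).card →
        ∃ y ∈ F, dist x y ≤ (1 / 2 : ℝ) ^ (k + d) := by
  have hlam0 : 0 < lam := by linarith
  induction d using Nat.strong_induction_on with
  | _ d ih =>
    intro k b x0 hk
    rcases Nat.lt_or_ge l d with hd | hd
    · -- split
      obtain ⟨F1, hF1, hF1'⟩ := hB k hk x0
      have h1 := fun y : UnitAddCircle => ih (d - l) (by omega) (k + l) (b - l) y (by omega)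
      choose G hG hG' using h1
      have h2 := fun y : UnitAddCircle => ih (d - 1) (by omega) (k + 1) b y (by omega)
      choose G2 hG2 hG2' using h2
      set r : ℝ := (1 / 2 : ℝ) ^ (k + 1) with hr
      set F : Finset UnitAddCircle := F1.biUnion G ∪
        (G2 (x0 + ((r : ℝ) : UnitAddCircle)) ∪ G2 (x0 - ((r : ℝ) : UnitAddCircle))) with hF
      refine ⟨F, ?_, fun x hx hcount => ?_⟩
      · have h3 : (F.card : ℝ) ≤ (F1.biUnion G).card +
            ((G2 (x0 + ((r : ℝ) : UnitAddCircle))).card +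
              (G2 (x0 - ((r : ℝ) : UnitAddCircle))).card) := by
          have h4 := Finset.card_union_le (F1.biUnion G)
            (G2 (x0 + ((r : ℝ) : UnitAddCircle)) ∪ G2 (x0 - ((r : ℝ) : UnitAddCircle)))
          have h5 := Finset.card_union_le (G2 (x0 + ((r : ℝ) : UnitAddCircle)))
            (G2 (x0 - ((r : ℝ) : UnitAddCircle)))
          exact_mod_cast h4.trans (by omega)
        have h4 : ((F1.biUnion G).card : ℝ) ≤ m * (lam ^ (d - l) * w ^ (b - l)) := by
          have h5 : ((F1.biUnion G).card : ℝ) ≤ ∑ y ∈ F1, ((G y).card : ℝ) := by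
            exact_mod_cast Finset.card_biUnion_le
          refine h5.trans ((Finset.sum_le_card_nsmul _ _ _ fun y _ => hG y).trans ?_)
          rw [nsmul_eq_mul]
          gcongr
        have h5 := hG2 (x0 + ((r : ℝ) : UnitAddCircle))
        have h6 := hG2 (x0 - ((r : ℝ) : UnitAddCircle))
        have h7 : w ^ (b - l) * w ^ l ≤ w ^ b := by
          rw [← pow_add]
          exact pow_le_pow_of_le_one hw0.le hw1 (by omega)
        have h8 : lam ^ (d - l) * lam ^ l = lam ^ d := by
          rw [← pow_add]; congr 1; omega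
        have h9 : lam ^ (d - 1) * lam = lam ^ d := by
          rw [← pow_succ]; congr 1; omega
        have h10 : (m : ℝ) * (lam ^ (d - l) * w ^ (b - l)) ≤
            m / (lam * w) ^ l * (lam ^ d * w ^ b) := by
          rw [div_mul_eq_mul_div, le_div_iff₀ (by positivity)]
          calc (m : ℝ) * (lam ^ (d - l) * w ^ (b - l)) * (lam * w) ^ l
              = m * ((lam ^ (d - l) * lam ^ l) * (w ^ (b - l) * w ^ l)) := by
                rw [mul_pow]; ring
            _ ≤ m * (lam ^ d * w ^ b) := by rw [h8]; gcongr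
        have h11 : 2 * (lam ^ (d - 1) * w ^ b) = 2 / lam * (lam ^ d * w ^ b) := by
          rw [← h9]; field_simp
        calc (F.card : ℝ) ≤ m / (lam * w) ^ l * (lam ^ d * w ^ b) +
              2 / lam * (lam ^ d * w ^ b) := by linarith
          _ = (m / (lam * w) ^ l + 2 / lam) * (lam ^ d * w ^ b) := by ring
          _ ≤ 1 * (lam ^ d * w ^ b) := by gcongr
          _ = lam ^ d * w ^ b := one_mul _
      · by_cases hbad : x ∈ Bd (k + l)
        · obtain ⟨y, hy, hxy⟩ := hF1' x hbad hx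
          have hsub : ((Finset.Ico (k + l) (k + d)).filter fun j => x ∈ Bd j) ⊆
              Finset.Ico (k + l) (k + l + l) ∪
              ((Finset.Ico (k + l + l) (k + l + (d - l))).filter fun j => x ∈ Bd j) := by
            intro j hj
            rw [Finset.mem_filter, Finset.mem_Ico] at hj
            rw [Finset.mem_union, Finset.mem_Ico, Finset.mem_filter, Finset.mem_Ico]
            by_cases h : j < k + l + l
            · left; omega
            · right; exact ⟨by omega, hj.2⟩
          have h3 := (Finset.card_le_card hsub).trans (Finset.card_union_le _ _)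
          rw [Nat.card_Ico] at h3
          obtain ⟨y', hy', hxy'⟩ := hG' y x hxy (by omega)
          have e : k + l + (d - l) = k + d := by omega
          rw [e] at hxy'
          exact ⟨y', Finset.mem_union_left _ (Finset.mem_biUnion.2 ⟨y, hy, hy'⟩), hxy'⟩
        · have h3 : ((Finset.Ico (k + l) (k + d)).filter fun j => x ∈ Bd j) ⊆
              ((Finset.Ico (k + 1 + l) (k + 1 + (d - 1))).filter fun j => x ∈ Bd j) := by
            intro j hj
            rw [Finset.mem_filter, Finset.mem_Ico] at hj ⊢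
            refine ⟨⟨?_, by omega⟩, hj.2⟩
            by_contra hcon
            have : j = k + l := by omega
            rw [this] at hj
            exact hbad hj.2
          have h4 := hcount.trans (Finset.card_le_card h3)
          have e : k + 1 + (d - 1) = k + d := by omega
          have hx2 : dist x x0 ≤ 2 * r := by
            rw [hr, pow_succ]
            linarith
          rcases halve x0 x hx2 with h5 | h5
          · obtain ⟨y, hy, hxy⟩ := hG2' _ x h5 h4
            rw [e] at hxy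
            exact ⟨y, Finset.mem_union_right _ (Finset.mem_union_left _ hy), hxy⟩
          · obtain ⟨y, hy, hxy⟩ := hG2' _ x h5 h4
            rw [e] at hxy
            exact ⟨y, Finset.mem_union_right _ (Finset.mem_union_right _ hy), hxy⟩
    · -- nothing to count
      have he : Finset.Ico (k + l) (k + d) = ∅ := Finset.Ico_eq_empty (by omega)
      rcases Nat.eq_zero_or_pos b with hb | hb
      · subst hb
        obtain ⟨F, hF, hF'⟩ := ball_cover d x0 ((1 / 2 : ℝ) ^ (k + d))
        refine ⟨F, ?_, fun x hx _ => hF' x (hx.trans (le_of_eq ?_))⟩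
        · rw [pow_zero, mul_one]
          calc (F.card : ℝ) ≤ 2 ^ d := by exact_mod_cast hF
            _ ≤ lam ^ d := by gcongr
        · rw [pow_add]
          have : (2 : ℝ) ^ d * (1 / 2) ^ d = 1 := by rw [← mul_pow]; norm_num
          calc (1 / 2 : ℝ) ^ k = (1 / 2) ^ k * (2 ^ d * (1 / 2) ^ d) := by rw [this, mul_one]
            _ = _ := by ring
      · refine ⟨∅, by simp; positivity, fun x _ h => ?_⟩
        rw [he, Finset.filter_empty, Finset.card_empty] at h
        omega

open Classical in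
/-- the whole circle -/
theorem cover_all (Bd : ℕ → Set UnitAddCircle) {m l k1 : ℕ} (hl : 1 ≤ l)
    (hB : ∀ k, k1 ≤ k → ∀ x0 : UnitAddCircle, ∃ F : Finset UnitAddCircle, F.card ≤ m ∧
      ∀ x ∈ Bd (k + l), dist x x0 ≤ (1 / 2 : ℝ) ^ k → ∃ y ∈ F, dist x y ≤ (1 / 2 : ℝ) ^ (k + l))
    {lam w : ℝ} (hlam : 2 ≤ lam) (hw0 : 0 < w) (hw1 : w ≤ 1)
    (hcond : m / (lam * w) ^ l + 2 / lam ≤ 1) (N : ℕ) (hN : k1 ≤ N) (b : ℕ) :
    ∃ F : Finset UnitAddCircle, (F.card : ℝ) ≤ 2 ^ k1 * (lam ^ N * w ^ b) ∧ ∀ x,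
      b ≤ ((Finset.Ico (k1 + l) N).filter fun j => x ∈ Bd j).card →
      ∃ y ∈ F, dist x y ≤ (1 / 2 : ℝ) ^ N := by
  obtain ⟨F0, hF0, hF0'⟩ := ball_cover k1 0 ((1 / 2 : ℝ) ^ k1)
  have h := fun y : UnitAddCircle =>
    recursion Bd hl hB hlam hw0 hw1 hcond (N - k1) k1 b y le_rfl
  choose G hG hG' using h
  have e : k1 + (N - k1) = N := by omega
  refine ⟨F0.biUnion G, ?_, fun x hx => ?_⟩
  · have h5 : ((F0.biUnion G).card : ℝ) ≤ ∑ y ∈ F0, ((G y).card : ℝ) := by
      exact_mod_cast Finset.card_biUnion_le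
    refine h5.trans ((Finset.sum_le_card_nsmul _ _ _ fun y _ => hG y).trans ?_)
    rw [nsmul_eq_mul]
    have h6 : (F0.card : ℝ) ≤ 2 ^ k1 := by exact_mod_cast hF0
    have h7 : lam ^ (N - k1) ≤ lam ^ N := pow_le_pow_right₀ (by linarith) (by omega)
    gcongr
  · obtain ⟨y, hy, hxy⟩ := hF0' x (by
      have h1 : (2 : ℝ) ^ k1 * (1 / 2) ^ k1 = 1 := by rw [← mul_pow]; norm_num
      rw [h1, dist_zero_right]
      refine le_trans (AddCircle.norm_le_half_period (1 : ℝ) one_ne_zero) ?_
      norm_num)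
    obtain ⟨y', hy', hxy'⟩ := hG' y x hxy (by rw [e]; exact hx)
    rw [e] at hxy'
    exact ⟨y', Finset.mem_biUnion.2 ⟨y, hy, hy'⟩, hxy'⟩

end Pool.Agent.Q99.WS
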