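import Pool.Agent.W764.HL.Gen
import Pool.Agent.Q99.WS.Cov

/-!
The points with few equidistributed windows have small covering numbers.
-/

set_option autoImplicit false

open MeasureTheory Filter Topology Set

namespace Pool.Agent.Q99.WS

open Pool.Agent.W764.FB Pool.Agent.W764.SH Pool.Agent.W764.HL

/-- the orbit of `x` is `ε`-equidistributed in the window `X ≤ n < H X` -/
def Eqd (p q : ℕ) (ε H X : ℝ) (x : T) : Prop :=
  (win p q X (H * X)).Nonempty ∧ ∀ c : T, ∀ r : ℝ, 0 ≤ r → r ≤ 1 / 2 →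
    |(vis p q X (H * X) x c r : ℝ) - 2 * r * (win p q X (H * X)).card| ≤
      ε * (win p q X (H * X)).card

lemma Eqd.mono {p q : ℕ} {ε ε' H X : ℝ} {x : T} (h : Eqd p q ε H X x) (he : ε ≤ ε') :
    Eqd p q ε' H X x := by
  refine ⟨h.1, fun c r hr0 hr => (h.2 c r hr0 hr).trans ?_⟩
  gcongr

lemma half_norm : ‖((1 / 2 : ℝ) : T)‖ = 1 / 2 := by
  have h4 := (AddCircle.norm_coe_eq_abs_iff (p := (1 : ℝ)) (x := 1 / 2) one_ne_zero).2 (by
    rw [abs_one, abs_of_nonneg (by norm_num)])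
  rw [h4, abs_of_nonneg (by norm_num)]

/-- lower bounds for all arcs give equidistribution -/
lemma eqd_of_lower {p q : ℕ} {ε H X : ℝ} (hε : 0 < ε) {x : T} (hne : (win p q X (H * X)).Nonempty)
    (h : ∀ c : T, ∀ r : ℝ, r ≤ 1 / 2 → (2 * r - ε / 2) * (win p q X (H * X)).card ≤
      (vis p q X (H * X) x c r : ℝ)) : Eqd p q ε H X x := by
  classical
  refine ⟨hne, fun c r hr0 hr => ?_⟩
  set W := win p q X (H * X) with hW
  have hWc : (0 : ℝ) ≤ W.card := Nat.cast_nonneg _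
  have h1 := h c r hr
  have h2 := h (c + ((1 / 2 : ℝ) : T)) (1 / 2 - r - ε / 8) (by linarith)
  have h3 : vis p q X (H * X) x c r + vis p q X (H * X) x (c + ((1 / 2 : ℝ) : T)) (1 / 2 - r - ε / 8)
      ≤ W.card := by
    unfold vis
    rw [← Finset.card_union_of_disjoint]
    · exact Finset.card_le_card (Finset.union_subset (Finset.filter_subset _ _)
        (Finset.filter_subset _ _))
    · rw [Finset.disjoint_filter]
      intro n _ ha hb
      have h4 : ‖((1 / 2 : ℝ) : T)‖ ≤ ‖n • x - c‖ + ‖n • x - (c + ((1 / 2 : ℝ) : T))‖ := by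
        have e : ((1 / 2 : ℝ) : T) = (n • x - c) - (n • x - (c + ((1 / 2 : ℝ) : T))) := by abel
        conv_lhs => rw [e]
        exact norm_sub_le _ _
      rw [half_norm] at h4
      linarith
  have h3' : (vis p q X (H * X) x c r : ℝ) +
      vis p q X (H * X) x (c + ((1 / 2 : ℝ) : T)) (1 / 2 - r - ε / 8) ≤ W.card := by
    exact_mod_cast h3
  rw [abs_le]
  constructor
  · nlinarith
  · nlinarith

/-- **Clusters of points.** -/
theorem cluster_eqd {p q : ℕ} (hp : 2 ≤ p) (hq : 2 ≤ q) (hpq : Nat.Coprime p q) {ε : ℝ}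
    (hε : 0 < ε) : ∃ m : ℕ, ∀ K : ℝ, 1 ≤ K → ∃ H0 : ℝ, 1 < H0 ∧ ∀ H : ℝ, H0 ≤ H →
      ∃ δ : ℝ, 0 < δ ∧ ∀ τ : ℝ, 0 < τ → τ < δ → ∀ x : Fin m → T,
        (∀ i j, i ≠ j → τ ≤ ‖x i - x j‖ ∧ ‖x i - x j‖ ≤ K * τ) →
        ∃ i, Eqd p q ε H (1 / τ) (x i) := by
  classical
  obtain ⟨m0, hm0⟩ := exists_nat_ge (4 / ε)
  set m : ℕ := m0 + 1 with hm
  have hmR : (0 : ℝ) < m := by rw [hm]; positivity
  have hmε : 1 / (m : ℝ) ≤ ε / 4 := by
    rw [div_le_div_iff₀ hmR (by norm_num)]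
    rw [div_le_iff₀ hε] at hm0
    have : (m0 : ℝ) ≤ m := by rw [hm]; push_cast; linarith
    nlinarith
  refine ⟨m, fun K hK => ?_⟩
  obtain ⟨H0, hH0, h⟩ := cluster hp hq hpq m hK (ε := ε / 4) (by positivity)
  refine ⟨H0, hH0, fun H hH => ?_⟩
  obtain ⟨δ, hδ, h2⟩ := h H hH
  refine ⟨δ, hδ, fun τ hτ hτδ x hx => ?_⟩
  obtain ⟨hne, h3⟩ := h2 τ hτ hτδ
  obtain ⟨α, hα1, hα2, hα3⟩ := h3 x hx
  have he : H / τ = H * (1 / τ) := by ring
  rw [he] at hne hα3
  have hex : ∃ i, 1 - α i ≤ 1 / m := by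
    by_contra hcon
    push Not at hcon
    have h4 : ∑ i : Fin m, (1 / (m : ℝ)) < ∑ i, (1 - α i) :=
      Finset.sum_lt_sum_of_nonempty ⟨⟨0, by omega⟩, Finset.mem_univ _⟩ fun i _ => hcon i
    rw [Finset.sum_const, Finset.card_univ, Fintype.card_fin, nsmul_eq_mul,
      mul_one_div_cancel hmR.ne'] at h4
    linarith
  obtain ⟨i, hi⟩ := hex
  refine ⟨i, eqd_of_lower hε hne fun c r hr => ?_⟩
  have h4 := hα3 i c r hr
  unfold vis
  refine le_trans ?_ h4
  have hWc : (0 : ℝ) ≤ (win p q (1 / τ) (H * (1 / τ))).card := Nat.cast_nonneg _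
  refine mul_le_mul_of_nonneg_right ?_ hWc
  have h5 := (hα1 i).2
  rcases le_total 0 r with h0 | h0
  · nlinarith
  · nlinarith

/-- parameters of the recursion -/
lemma params {s' s'' : ℝ} (h0 : 0 ≤ s') (h1 : s' < s'') (m : ℕ) : ∃ (lam w : ℝ) (l : ℕ),
    2 ≤ lam ∧ 0 < w ∧ w ≤ 1 ∧ 1 ≤ l ∧ m / (lam * w) ^ l + 2 / lam ≤ 1 ∧
      lam * w ^ (1 - s') < (2 : ℝ) ^ s'' := by
  set η : ℝ := min 1 ((s'' - s') / (2 * (s' + 2))) with hη
  have hη0 : 0 < η := by
    refine lt_min one_pos (div_pos (by linarith) (by linarith))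
  have hη1 : η ≤ 1 := min_le_left _ _
  have hη2 : η * (2 * (s' + 2)) ≤ s'' - s' := by
    rw [← le_div_iff₀ (by linarith)]
    exact min_le_right _ _
  set lam : ℝ := (2 : ℝ) ^ (1 + η) with hlam
  set w : ℝ := (2 : ℝ) ^ (-((1 + η) * (1 - η))) with hw
  have hlw : lam * w = (2 : ℝ) ^ ((1 + η) * η) := by
    rw [hlam, hw, ← Real.rpow_add (by norm_num)]
    congr 1; ring
  have hlw1 : 1 < lam * w := by
    rw [hlw]
    exact Real.one_lt_rpow (by norm_num) (by positivity)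
  have hlam2 : 2 < lam := by
    rw [hlam]
    calc (2 : ℝ) = 2 ^ (1 : ℝ) := (Real.rpow_one 2).symm
      _ < 2 ^ (1 + η) := Real.rpow_lt_rpow_of_exponent_lt (by norm_num) (by linarith)
  have hgap : 0 < 1 - 2 / lam := by
    rw [sub_pos, div_lt_one (by linarith)]
    exact hlam2
  have hlim : Tendsto (fun l : ℕ => (m : ℝ) / (lam * w) ^ l) atTop (𝓝 0) :=
    (tendsto_pow_atTop_atTop_of_one_lt hlw1).const_div_atTop _
  obtain ⟨l, hl1, hl2⟩ := ((hlim.eventually (gt_mem_nhds hgap)).and (eventually_ge_atTop 1)).exists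
  refine ⟨lam, w, l, hlam2.le, by positivity, ?_, hl2, by linarith, ?_⟩
  · rw [hw]
    refine Real.rpow_le_one_of_one_le_of_nonpos (by norm_num) ?_
    have : 0 ≤ (1 + η) * (1 - η) := mul_nonneg (by linarith) (by linarith)
    linarith
  · rw [hlam, hw, ← Real.rpow_mul (by norm_num), ← Real.rpow_add (by norm_num)]
    refine Real.rpow_lt_rpow_of_exponent_lt (by norm_num) ?_
    have e : 1 + η + -((1 + η) * (1 - η)) * (1 - s') = (1 + η) * (s' + η * (1 - s')) := by ring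
    rw [e]
    have h2 : (1 + η) * (s' + η * (1 - s')) ≤ (1 + η) * (s' + η) := by
      apply mul_le_mul_of_nonneg_left _ (by linarith)
      nlinarith
    nlinarith

open Classical in
/-- the number of the scales `k < N` with an equidistributed window -/
noncomputable def cE (p q : ℕ) (ε H : ℝ) (N : ℕ) (x : T) : ℕ :=
  ((Finset.range N).filter fun k => Eqd p q ε H ((2 : ℝ) ^ k) x).card

open Classical in
/-- **The core covering statement.** -/
theorem core_cover {p q : ℕ} (hp : 2 ≤ p) (hq : 2 ≤ q) (hpq : Nat.Coprime p q) {ε : ℝ}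
    (hε : 0 < ε) {s' s'' : ℝ} (h0 : 0 ≤ s') (h1 : s' < s'') : ∃ H0 : ℝ, 1 < H0 ∧
      ∀ H : ℝ, H0 ≤ H → ∃ N0 : ℕ, ∀ N : ℕ, N0 ≤ N → ∃ F : Finset T,
        (F.card : ℝ) ≤ (1 / 2 : ℝ) ^ (-(s'' * N)) ∧ ∀ x : T,
          (cE p q ε H N x : ℝ) < s' * N → ∃ y ∈ F, dist x y ≤ (1 / 2 : ℝ) ^ N := by
  obtain ⟨m, hm⟩ := cluster_eqd hp hq hpq hε
  obtain ⟨lam, w, l, hlam, hw0, hw1, hl, hcond, hlt⟩ := params h0 h1 m
  obtain ⟨H0, hH0, h2⟩ := hm ((2 : ℝ) ^ (l + 1)) (one_le_pow₀ (by norm_num))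
  refine ⟨H0, hH0, fun H hH => ?_⟩
  obtain ⟨δ, hδ, h3⟩ := h2 H hH
  obtain ⟨k1, hk1⟩ := exists_pow_lt_of_lt_one hδ (by norm_num : (1 / 2 : ℝ) < 1)
  set Bd : ℕ → Set T := fun k => {x | ¬ Eqd p q ε H ((2 : ℝ) ^ k) x} with hBd
  have hB : ∀ k, k1 ≤ k → ∀ x0 : T, ∃ F : Finset T, F.card ≤ m ∧
      ∀ x ∈ Bd (k + l), dist x x0 ≤ (1 / 2 : ℝ) ^ k →
        ∃ y ∈ F, dist x y ≤ (1 / 2 : ℝ) ^ (k + l) := by
    intro k hk x0
    rcases greedy {x | x ∈ Bd (k + l) ∧ dist x x0 ≤ (1 / 2 : ℝ) ^ k} ((1 / 2 : ℝ) ^ (k + l)) m with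
      ⟨f, hf, hsep⟩ | ⟨F, hF, hF'⟩
    · exfalso
      have hτ : (0 : ℝ) < (1 / 2 : ℝ) ^ (k + l) := by positivity
      have hτδ : (1 / 2 : ℝ) ^ (k + l) < δ :=
        lt_of_le_of_lt (pow_le_pow_of_le_one (by norm_num) (by norm_num) (by omega)) hk1
      obtain ⟨i, hi⟩ := h3 _ hτ hτδ f (by
        intro i j hij
        rw [← dist_eq_norm]
        refine ⟨(hsep i j hij).le, ?_⟩
        have h4 := dist_triangle_right (f i) (f j) x0
        have h5 := (hf i).2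
        have h6 := (hf j).2
        have e : (2 : ℝ) ^ (l + 1) * (1 / 2) ^ (k + l) = 2 * (1 / 2) ^ k := by
          rw [pow_succ, pow_add]
          have : (2 : ℝ) ^ l * (1 / 2) ^ l = 1 := by rw [← mul_pow]; norm_num
          calc (2 : ℝ) ^ l * 2 * ((1 / 2) ^ k * (1 / 2) ^ l)
              = (2 ^ l * (1 / 2) ^ l) * (2 * (1 / 2) ^ k) := by ring
            _ = _ := by rw [this, one_mul]
        rw [e]
        linarith)
      have e : 1 / (1 / 2 : ℝ) ^ (k + l) = 2 ^ (k + l) := by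
        rw [one_div, one_div, inv_pow, inv_inv]
      rw [e] at hi
      exact (hf i).1 hi
    · exact ⟨F, hF, fun x hx1 hx2 => hF' x ⟨hx1, hx2⟩⟩
  -- the constants
  set C : ℝ := 2 ^ k1 * w ^ (-((k1 : ℝ) + l)) with hC
  have hC0 : 0 < C := by positivity
  set θ : ℝ := lam * w ^ (1 - s') with hθ
  have hθ0 : 0 < θ := by positivity
  have hρ : θ / (2 : ℝ) ^ s'' < 1 := by
    rw [div_lt_one (by positivity)]; exact hlt
  have hlim : Tendsto (fun N : ℕ => C * (θ / (2 : ℝ) ^ s'') ^ N) atTop (𝓝 0) := by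
    have := (tendsto_pow_atTop_nhds_zero_of_lt_one (by positivity) hρ).const_mul C
    rwa [mul_zero] at this
  obtain ⟨N0, hN0⟩ := eventually_atTop.1 (hlim.eventually (gt_mem_nhds one_pos))
  refine ⟨max N0 k1, fun N hN => ?_⟩
  have hN1 : N0 ≤ N := (le_max_left _ _).trans hN
  have hN2 : k1 ≤ N := (le_max_right _ _).trans hN
  set b : ℕ := ⌈(1 - s') * N - ((k1 : ℝ) + l)⌉₊ with hb
  obtain ⟨F, hF, hF'⟩ := cover_all Bd hl hB hlam hw0 hw1 hcond N hN2 b
  refine ⟨F, hF.trans ?_, fun x hx => hF' x ?_⟩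
  · have h4 : w ^ b ≤ w ^ ((1 - s') * N - ((k1 : ℝ) + l)) := by
      rw [← Real.rpow_natCast]
      exact Real.rpow_le_rpow_of_exponent_ge hw0 hw1 (Nat.le_ceil _)
    have h5 : w ^ ((1 - s') * N - ((k1 : ℝ) + l)) = (w ^ (1 - s')) ^ N * w ^ (-((k1 : ℝ) + l)) := by
      rw [sub_eq_add_neg, Real.rpow_add hw0, Real.rpow_mul hw0.le, Real.rpow_natCast]
    have h6 : (1 / 2 : ℝ) ^ (-(s'' * N)) = ((2 : ℝ) ^ s'') ^ N := by
      rw [one_div, Real.inv_rpow (by norm_num), Real.rpow_neg (by norm_num), inv_inv,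
        Real.rpow_mul (by norm_num), Real.rpow_natCast]
    have h7 := hN0 N hN1
    calc 2 ^ k1 * (lam ^ N * w ^ b) ≤ 2 ^ k1 * (lam ^ N * ((w ^ (1 - s')) ^ N *
          w ^ (-((k1 : ℝ) + l)))) := by rw [← h5]; gcongr
      _ = C * (θ / (2 : ℝ) ^ s'') ^ N * ((2 : ℝ) ^ s'') ^ N := by
          rw [hC, hθ, div_pow, mul_pow]
          field_simp
      _ ≤ 1 * ((2 : ℝ) ^ s'') ^ N := by gcongr
      _ = _ := by rw [one_mul, h6]
  · rw [hb]
    refine Nat.ceil_le.2 ?_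
    have h4 : cE p q ε H N x + ((Finset.range N).filter fun k => x ∈ Bd k).card = N := by
      have := Finset.card_filter_add_card_filter_not (s := Finset.range N)
        (fun k => Eqd p q ε H ((2 : ℝ) ^ k) x)
      rw [Finset.card_range] at this
      unfold cE
      convert this
    have h5 : ((Finset.range N).filter fun k => x ∈ Bd k) ⊆ Finset.range (k1 + l) ∪
        ((Finset.Ico (k1 + l) N).filter fun k => x ∈ Bd k) := by
      intro j hj
      rw [Finset.mem_filter, Finset.mem_range] at hj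
      rw [Finset.mem_union, Finset.mem_range, Finset.mem_filter, Finset.mem_Ico]
      by_cases h : j < k1 + l
      · left; exact h
      · right; exact ⟨⟨by omega, hj.1⟩, hj.2⟩
    have h6 := (Finset.card_le_card h5).trans (Finset.card_union_le _ _)
    rw [Finset.card_range] at h6
    have h7 : (N : ℝ) ≤ (cE p q ε H N x : ℝ) +
        ((k1 : ℝ) + l + ((Finset.Ico (k1 + l) N).filter fun k => x ∈ Bd k).card) := by
      have h8 : N ≤ cE p q ε H N x +
        (k1 + l + ((Finset.Ico (k1 + l) N).filter fun k => x ∈ Bd k).card) := by omega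
      exact_mod_cast h8
    have h9 : (1 - s') * N = N - s' * N := by ring
    have h10 : ((1 - s') * N - ((k1 : ℝ) + l) : ℝ) ≤
        (((Finset.Ico (k1 + l) N).filter fun k => x ∈ Bd k).card : ℝ) := by
      rw [h9]
      linarith
    refine h10.trans (le_of_eq ?_)
    congr!

end Pool.Agent.Q99.WS
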