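import Pool.Agent.Q99.WS.Up
import Pool.Agent.Y314.FD.Final

/-!
Lower bound of the dimension: points with long runs of zero digits.
-/

set_option autoImplicit false

open MeasureTheory Filter Topology Set
open scoped ENNReal

namespace Pool.Agent.Q99.WS

open Pool.Agent.W764.FB Pool.Agent.W764.SH Pool.Agent.W764.HL

/-- the rows of a slab -/
noncomputable def rows (α β x L : ℝ) (I : ℕ) : Finset (ℕ × ℕ) :=
  (Finset.range I).biUnion fun i =>
    (Finset.Ico ⌈(x - i * α) / β⌉₊ ⌈(x + L - i * α) / β⌉₊).image (Prod.mk i)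

lemma mem_rows {α β x L : ℝ} (hβ : 0 < β) {I : ℕ} {i j : ℕ} : (i, j) ∈ rows α β x L I ↔
    i < I ∧ (i, j) ∈ slab α β x L := by
  unfold rows
  simp only [Finset.mem_biUnion, Finset.mem_range, Finset.mem_image, Finset.mem_Ico,
    Prod.mk.injEq]
  constructor
  · rintro ⟨i', hi', j', ⟨h1, h2⟩, rfl, rfl⟩
    refine ⟨hi', ?_, ?_⟩
    · have h3 := Nat.ceil_le.1 h1
      rw [div_le_iff₀ hβ] at h3
      simp only
      linarith
    · have h3 := Nat.lt_ceil.1 h2
      rw [lt_div_iff₀ hβ] at h3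
      simp only
      linarith
  · rintro ⟨hi, h1, h2⟩
    simp only at h1 h2
    refine ⟨i, hi, j, ⟨Nat.ceil_le.2 ?_, Nat.lt_ceil.2 ?_⟩, rfl, rfl⟩
    · rw [div_le_iff₀ hβ]; linarith
    · rw [lt_div_iff₀ hβ]; linarith

lemma card_rows (α β x L : ℝ) (I : ℕ) : (rows α β x L I).card =
    ∑ i ∈ Finset.range I, (⌈(x + L - i * α) / β⌉₊ - ⌈(x - i * α) / β⌉₊) := by
  unfold rows
  rw [Finset.card_biUnion]
  · refine Finset.sum_congr rfl fun i _ => ?_
    rw [Finset.card_image_of_injective _ (fun a b h => by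
      simp only [Prod.mk.injEq, true_and] at h; exact h), Nat.card_Ico]
  · intro i _ j _ hij
    rw [Function.onFun, Finset.disjoint_left]
    intro u hu hv
    rw [Finset.mem_image] at hu hv
    obtain ⟨a, -, rfl⟩ := hu
    obtain ⟨b, -, hb⟩ := hv
    simp only [Prod.mk.injEq] at hb
    exact hij hb.1.symm

lemma cnt_lower {α β x L : ℝ} (hα : 0 < α) (hβ : 0 < β) (hx : 0 ≤ x) (hL : β ≤ L) :
    x / α * (L / β - 1) ≤ cnt α β x L := by
  set I := ⌊x / α⌋₊ + 1 with hI
  have h1 : (rows α β x L I).card ≤ cnt α β x L := by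
    rw [← Set.ncard_coe_finset]
    refine Set.ncard_le_ncard ?_ (slab_finite hα hβ _ _)
    rintro ⟨i, j⟩ h
    exact ((mem_rows hβ).1 h).2
  have h2 : x / α * (L / β - 1) ≤ ((rows α β x L I).card : ℝ) := by
    rw [card_rows]
    push_cast
    have h3 : ∀ i ∈ Finset.range I, L / β - 1 ≤
        ((⌈(x + L - i * α) / β⌉₊ - ⌈(x - i * α) / β⌉₊ : ℕ) : ℝ) := by
      intro i hi
      rw [Finset.mem_range, hI, Nat.lt_succ_iff] at hi
      have h4 : (i : ℝ) ≤ x / α := (Nat.le_floor_iff (by positivity)).1 hi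
      rw [le_div_iff₀ hα] at h4
      have h5 : (⌈(x - i * α) / β⌉₊ : ℝ) < (x - i * α) / β + 1 :=
        Nat.ceil_lt_add_one (div_nonneg (by linarith) hβ.le)
      have h6 : (x + L - i * α) / β ≤ (⌈(x + L - i * α) / β⌉₊ : ℝ) := Nat.le_ceil _
      have h7 : (⌈(x + L - i * α) / β⌉₊ : ℝ) ≤
          ((⌈(x + L - i * α) / β⌉₊ - ⌈(x - i * α) / β⌉₊ : ℕ) : ℝ) + (⌈(x - i * α) / β⌉₊ : ℝ) := by
        exact_mod_cast le_tsub_add
      have h8 : (x + L - i * α) / β = (x - i * α) / β + L / β := by ring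
      linarith
    have h4 := Finset.card_nsmul_le_sum _ _ _ h3
    rw [Finset.card_range, nsmul_eq_mul] at h4
    refine le_trans ?_ h4
    have h5 : x / α ≤ I := by
      rw [hI]; push_cast
      exact (Nat.lt_floor_add_one _).le
    have h6 : 0 ≤ L / β - 1 := by
      rw [sub_nonneg, le_div_iff₀ hβ]; linarith
    gcongr
  exact h2.trans (by exact_mod_cast h1)

lemma cnt_upper {α β x L : ℝ} (hα : 0 < α) (hβ : 0 < β) (hx : 0 ≤ x) (hL : 0 ≤ L) :
    (cnt α β x L : ℝ) ≤ ((x + L) / α + 1) * (L / β + 1) := by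
  set I := ⌈(x + L) / α⌉₊ with hI
  have h1 : cnt α β x L ≤ (rows α β x L I).card := by
    rw [← Set.ncard_coe_finset]
    refine Set.ncard_le_ncard ?_ (Finset.finite_toSet _)
    rintro ⟨i, j⟩ h
    rw [Finset.mem_coe, mem_rows hβ]
    refine ⟨?_, h⟩
    rw [hI, Nat.lt_ceil, lt_div_iff₀ hα]
    have h2 := h.2
    simp only at h2
    have : (0 : ℝ) ≤ j * β := by positivity
    linarith
  have h2 : ((rows α β x L I).card : ℝ) ≤ ((x + L) / α + 1) * (L / β + 1) := by
    rw [card_rows]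
    push_cast
    have h3 : ∀ i ∈ Finset.range I,
        ((⌈(x + L - i * α) / β⌉₊ - ⌈(x - i * α) / β⌉₊ : ℕ) : ℝ) ≤ L / β + 1 := by
      intro i hi
      have hL' : 0 ≤ L / β := by positivity
      rcases le_or_gt ⌈(x + L - i * α) / β⌉₊ ⌈(x - i * α) / β⌉₊ with h4 | h4
      · rw [Nat.sub_eq_zero_of_le h4]
        push_cast
        linarith
      · rw [Nat.cast_sub h4.le]
        have h5 : 0 < (x + L - i * α) / β := by
          have : 0 < ⌈(x + L - i * α) / β⌉₊ := by omega
          exact Nat.ceil_pos.1 this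
        have h6 := Nat.ceil_lt_add_one h5.le
        have h7 : (x - i * α) / β ≤ (⌈(x - i * α) / β⌉₊ : ℝ) := Nat.le_ceil _
        have h8 : (x + L - i * α) / β = (x - i * α) / β + L / β := by ring
        linarith
    refine (Finset.sum_le_card_nsmul _ _ _ h3).trans ?_
    rw [Finset.card_range, nsmul_eq_mul]
    have h5 : (I : ℝ) ≤ (x + L) / α + 1 := by
      rw [hI]
      exact (Nat.ceil_lt_add_one (by positivity)).le
    gcongr
  refine le_trans ?_ h2
  exact_mod_cast h1

section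
variable {p q : ℕ} (hp : 2 ≤ p) (hq : 2 ≤ q) (hpq : Nat.Coprime p q)
include hp hq hpq

/-- many points of the window are close to zero -/
lemma vis_zero {x : T} {n1 n2 : ℕ} (hn : n1 ≤ n2) (hx : ‖p ^ n1 • x‖ ≤ 1 / (p : ℝ) ^ (n2 - n1))
    {X H ρ : ℝ} (hX : 0 < X) (hH : 0 < H) (hρ : H * X ≤ ρ * (p : ℝ) ^ n2) :
    (win p q (X / p ^ n1) (H * (X / p ^ n1))).card ≤ vis p q X (H * X) x 0 ρ := by
  classical
  have hp0 : (0 : ℝ) < p := by
    have : 0 < p := by omega
    exact_mod_cast this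
  have hpn : (0 : ℝ) < (p : ℝ) ^ n1 := by positivity
  unfold vis
  refine Finset.card_le_card_of_injOn (fun n => p ^ n1 * n) ?_ ?_
  · intro n hn'
    rw [Finset.mem_coe, mem_win] at hn'
    obtain ⟨⟨a, b, rfl⟩, h1, h2⟩ := hn'
    rw [Finset.mem_coe, Finset.mem_filter, mem_win]
    refine ⟨⟨⟨n1 + a, b, by ring⟩, ?_, ?_⟩, ?_⟩
    · rw [div_le_iff₀ hpn] at h1
      push_cast at h1 ⊢
      linarith
    · rw [← mul_div_assoc, lt_div_iff₀ hpn] at h2
      push_cast at h2 ⊢
      linarith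
    · rw [sub_zero]
      have e : (p ^ n1 * (p ^ a * q ^ b)) • x = (p ^ a * q ^ b) • (p ^ n1 • x) := by
        rw [← mul_smul]; congr 1; ring
      rw [e]
      refine (norm_nsmul_le).trans ?_
      have e2 : (p : ℝ) ^ n2 = p ^ n1 * p ^ (n2 - n1) := by
        rw [← pow_add]; congr 1; omega
      have h3 : ((p ^ a * q ^ b : ℕ) : ℝ) ≤ H * X / p ^ n1 := by
        rw [mul_div_assoc]; exact h2.le
      calc ((p ^ a * q ^ b : ℕ) : ℝ) * ‖p ^ n1 • x‖
          ≤ H * X / p ^ n1 * (1 / (p : ℝ) ^ (n2 - n1)) := by gcongr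
        _ = H * X / (p : ℝ) ^ n2 := by rw [e2]; field_simp
        _ ≤ ρ := by rw [div_le_iff₀ (by positivity)]; exact hρ
  · intro a _ b _ h
    simp only at h
    exact Nat.eq_of_mul_eq_mul_left (by positivity) h

/-- scales without equidistribution -/
lemma not_eqd {x : T} {n1 n2 : ℕ} (hn : n1 ≤ n2) (hx : ‖p ^ n1 • x‖ ≤ 1 / (p : ℝ) ^ (n2 - n1))
    {X H η ε : ℝ} (hX : 0 < X) (hH : (q : ℝ) ^ 3 ≤ H) (hη : 0 < η)
    (hε : ε = η / (4 * (1 + η)) / 4) (hρ : H * X ≤ ε * (p : ℝ) ^ n2)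
    (h1 : (1 + η) * (n1 * Real.log p) ≤ Real.log X) (h2 : Real.log H + Real.log p ≤ Real.log X) :
    ¬ Eqd p q ε H X x := by
  intro hE
  have hirr := irr_of_coprime hp hq hpq
  obtain ⟨hα, hβ⟩ := log_pos' hp hq
  set α := Real.log p with hαd
  set β := Real.log q with hβd
  have hp0 : (0 : ℝ) < p := by
    have : 0 < p := by omega
    exact_mod_cast this
  have hq1 : (1 : ℝ) < q := by exact_mod_cast (by omega : 1 < q)
  have hH0 : 0 < H := lt_of_lt_of_le (by positivity) hH
  have hL : 3 * β ≤ Real.log H := by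
    have := Real.log_le_log (by positivity) hH
    rw [Real.log_pow] at this
    push_cast at this
    exact this
  set L := Real.log H with hLd
  have hlX : 0 < Real.log X := by linarith
  have hpn : (0 : ℝ) < (p : ℝ) ^ n1 := by positivity
  have hW : ((win p q X (H * X)).card : ℝ) ≤ ((Real.log X + L) / α + 1) * (L / β + 1) := by
    rw [card_win hp hq hirr hX (by positivity)]
    have e : Real.log (H * X) - Real.log X = L := by
      rw [Real.log_mul hH0.ne' hX.ne']; ring
    rw [e]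
    exact cnt_upper hα hβ hlX.le (by linarith)
  have hn1 : (n1 : ℝ) * α ≤ Real.log X := by
    have : (0 : ℝ) ≤ n1 * α := by positivity
    nlinarith
  have hW' : (Real.log X - n1 * α) / α * (L / β - 1) ≤
      ((win p q (X / p ^ n1) (H * (X / p ^ n1))).card : ℝ) := by
    rw [card_win hp hq hirr (by positivity) (by positivity)]
    have e : Real.log (H * (X / p ^ n1)) - Real.log (X / p ^ n1) = L := by
      rw [Real.log_mul hH0.ne' (by positivity)]; ring
    have e2 : Real.log (X / (p : ℝ) ^ n1) = Real.log X - n1 * α := by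
      rw [Real.log_div hX.ne' hpn.ne', Real.log_pow]
    rw [e, e2]
    exact cnt_lower hα hβ (by linarith) (by linarith)
  have hv := vis_zero hp hq hpq hn hx hX hH0 hρ
  have hv' : ((win p q (X / p ^ n1) (H * (X / p ^ n1))).card : ℝ) ≤
      (vis p q X (H * X) x 0 ε : ℝ) := by exact_mod_cast hv
  set c0 : ℝ := η / (4 * (1 + η)) with hc0
  have hc00 : 0 < c0 := by positivity
  have hc01 : c0 ≤ 1 := by
    rw [hc0, div_le_one (by positivity)]; linarith
  have hWpos : (0 : ℝ) < (win p q X (H * X)).card := by exact_mod_cast hE.1.card_pos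
  have h3 := (hE.2 0 ε (by rw [hε]; positivity) (by rw [hε]; linarith))
  rw [abs_le] at h3
  -- the comparison
  have h4 : c0 * (((Real.log X + L) / α + 1) * (L / β + 1)) ≤
      (Real.log X - n1 * α) / α * (L / β - 1) := by
    have h5 : (L / β + 1) / 2 ≤ L / β - 1 := by
      have : 3 ≤ L / β := by rw [le_div_iff₀ hβ]; linarith
      linarith
    have h6 : η / (1 + η) * Real.log X ≤ Real.log X - n1 * α := by
      rw [div_mul_eq_mul_div, div_le_iff₀ (by positivity)]
      nlinarith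
    have h7 : (Real.log X + L) / α + 1 ≤ 2 * Real.log X / α := by
      rw [div_add_one hα.ne']
      gcongr
      linarith
    have h8 : 0 ≤ L / β + 1 := by
      have : 0 ≤ L / β := div_nonneg (by linarith) hβ.le
      linarith
    calc c0 * (((Real.log X + L) / α + 1) * (L / β + 1))
        ≤ c0 * (2 * Real.log X / α * (L / β + 1)) := by gcongr
      _ = (η / (1 + η) * Real.log X) / α * ((L / β + 1) / 2) := by
          rw [hc0]; field_simp; ring
      _ ≤ (Real.log X - n1 * α) / α * (L / β - 1) := by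
          have h9 : 0 ≤ (Real.log X - n1 * α) / α := div_nonneg (by linarith) hα.le
          have h10 : 0 ≤ (L / β + 1) / 2 := by linarith
          gcongr
  have h5 : c0 * ((win p q X (H * X)).card : ℝ) ≤ (vis p q X (H * X) x 0 ε : ℝ) := by
    refine le_trans ?_ (hW'.trans hv')
    refine le_trans ?_ h4
    gcongr
  have h6 : (vis p q X (H * X) x 0 ε : ℝ) ≤ 3 * ε * (win p q X (H * X)).card := by
    linarith [h3.2]
  have h7 : c0 * ((win p q X (H * X)).card : ℝ) ≤ 3 * ε * (win p q X (H * X)).card := h5.trans h6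
  have h8 := le_of_mul_le_mul_right h7 hWpos
  rw [hε] at h8
  linarith

/-- **Points with long runs of zeros have few equidistributed windows.** -/
lemma lowD_le {x : T} {θ s : ℝ} (hθ0 : 0 ≤ θ) (hθs : θ < s)
    (hseq : ∀ K : ℕ, ∃ n1 n2 : ℕ, K ≤ n1 ∧ n1 ≤ n2 ∧ (n1 : ℝ) ≤ θ * n2 ∧
      ‖p ^ n1 • x‖ ≤ 1 / (p : ℝ) ^ (n2 - n1)) :
    ∃ ε : ℝ, 0 < ε ∧ ∀ H0 : ℕ, ∃ H : ℕ, H0 ≤ H ∧ lowD p q ε H x ≤ s := by
  classical
  obtain ⟨hα, hβ⟩ := log_pos' hp hq
  set α := Real.log p with hαd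
  set η : ℝ := (s - θ) / (2 * (θ + 1)) with hη
  have hη0 : 0 < η := div_pos (by linarith) (by linarith)
  have hηθ : (1 + η) * θ < s := by
    have h1 : η * (2 * (θ + 1)) = s - θ := by
      rw [hη]; field_simp
    nlinarith
  set ε : ℝ := η / (4 * (1 + η)) / 4 with hε
  have hε0 : 0 < ε := by positivity
  refine ⟨ε, hε0, fun H0 => ⟨max H0 (q ^ 3), le_max_left _ _, ?_⟩⟩
  set H : ℕ := max H0 (q ^ 3) with hH
  have hHq : (q : ℝ) ^ 3 ≤ (H : ℝ) := by
    have : q ^ 3 ≤ H := le_max_right _ _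
    exact_mod_cast this
  have hq1 : (1 : ℝ) < q := by exact_mod_cast (by omega : 1 < q)
  have hHR : (1 : ℝ) < H := lt_of_lt_of_le (one_lt_pow₀ hq1 (by norm_num)) hHq
  have hHR0 : (0 : ℝ) < H := by linarith
  have hp0 : (0 : ℝ) < p := by
    have : 0 < p := by omega
    exact_mod_cast this
  have hlog2 : 0 < Real.log 2 := Real.log_pos (by norm_num)
  refine liminf_le_of_frequently_le ?_ ⟨0, eventually_map.2 (Eventually.of_forall fun N =>
    ratio_nonneg p q ε H N x)⟩
  rw [frequently_atTop]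
  intro N1
  set B : ℝ := Real.log (H / ε) with hB
  set gap : ℝ := α * (s - (1 + η) * θ) with hgap
  have hgap0 : 0 < gap := mul_pos hα (by linarith)
  obtain ⟨K1, hK1⟩ := exists_nat_ge ((Real.log H + α) / α)
  obtain ⟨K2, hK2⟩ := exists_nat_ge ((Real.log 2 + s * (B + Real.log 2)) / gap)
  obtain ⟨K3, hK3⟩ := exists_nat_ge (((N1 + 2) * Real.log 2 + B) / α)
  obtain ⟨n1, n2, hKn, hn12, hθn, hnx⟩ := hseq (K1 + K2 + K3)
  have hn1K1 : (K1 : ℝ) ≤ n1 := by exact_mod_cast (by omega : K1 ≤ n1)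
  have hn2K2 : (K2 : ℝ) ≤ n2 := by exact_mod_cast (by omega : K2 ≤ n2)
  have hn2K3 : (K3 : ℝ) ≤ n2 := by exact_mod_cast (by omega : K3 ≤ n2)
  have hc1 : Real.log H + α ≤ n1 * α := by
    rw [div_le_iff₀ hα] at hK1
    nlinarith
  have hc2 : Real.log 2 + s * (B + Real.log 2) ≤ n2 * gap := by
    rw [div_le_iff₀ hgap0] at hK2
    nlinarith
  have hc3 : (N1 + 2) * Real.log 2 + B ≤ n2 * α := by
    rw [div_le_iff₀ hα] at hK3
    nlinarith
  set N : ℕ := ⌊(n2 * α - B) / Real.log 2⌋₊ with hN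
  have hNpos : 0 ≤ (n2 * α - B) / Real.log 2 := by
    apply div_nonneg _ hlog2.le
    have : (0 : ℝ) ≤ (N1 + 2) * Real.log 2 := by positivity
    linarith
  have hN1 : (N : ℝ) ≤ (n2 * α - B) / Real.log 2 := Nat.floor_le hNpos
  have hN2 : (n2 * α - B) / Real.log 2 < N + 1 := Nat.lt_floor_add_one _
  have hNN1 : N1 + 1 ≤ N := by
    rw [hN]
    apply Nat.le_floor
    rw [le_div_iff₀ hlog2]
    push_cast
    nlinarith
  refine ⟨N, by omega, ?_⟩
  have hNR : (0 : ℝ) < N := by exact_mod_cast (by omega : 0 < N)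
  -- the good scales
  set K : ℕ := ⌈(1 + η) * (n1 * α) / Real.log 2⌉₊ with hK
  have hKR : (K : ℝ) < (1 + η) * (n1 * α) / Real.log 2 + 1 :=
    Nat.ceil_lt_add_one (by positivity)
  have hcE : cE p q ε H N x ≤ K := by
    unfold cE
    have hsub : ((Finset.range N).filter fun k => Eqd p q ε H ((2 : ℝ) ^ k) x) ⊆
        Finset.range K := by
      intro k hk
      rw [Finset.mem_filter, Finset.mem_range] at hk
      rw [Finset.mem_range]
      by_contra hlt
      push Not at hlt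
      have hkN : (k : ℝ) ≤ N := by exact_mod_cast hk.1.le
      have h1 : (1 + η) * (n1 * α) ≤ k * Real.log 2 := by
        have h2 : (1 + η) * (n1 * α) / Real.log 2 ≤ k :=
          (Nat.le_ceil _).trans (by exact_mod_cast hlt)
        rwa [div_le_iff₀ hlog2] at h2
      have hlogX : Real.log ((2 : ℝ) ^ k) = k * Real.log 2 := Real.log_pow _ _
      refine not_eqd hp hq hpq hn12 hnx (X := (2 : ℝ) ^ k) (H := (H : ℝ)) (η := η) (ε := ε)
        (by positivity) hHq hη0 hε ?_ (by rw [hlogX]; exact h1) ?_ hk.2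
      · have h2 : (k : ℝ) * Real.log 2 ≤ n2 * α - B := by
          have h3 := hkN.trans hN1
          rwa [le_div_iff₀ hlog2] at h3
        have h3 : Real.log ((H : ℝ) * 2 ^ k) ≤ Real.log (ε * (p : ℝ) ^ n2) := by
          rw [Real.log_mul hHR0.ne' (by positivity), Real.log_mul hε0.ne' (by positivity), hlogX,
            Real.log_pow]
          rw [hB, Real.log_div hHR0.ne' hε0.ne'] at h2
          linarith
        exact (Real.log_le_log_iff (by positivity) (by positivity)).1 h3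
      · rw [hlogX]
        have h2 : (n1 : ℝ) * α ≤ (1 + η) * (n1 * α) := by
          have : (0 : ℝ) ≤ n1 * α := by positivity
          nlinarith
        linarith
    have := Finset.card_le_card hsub
    rwa [Finset.card_range] at this
  rw [div_le_iff₀ hNR]
  have h1 : (cE p q ε H N x : ℝ) ≤ K := by exact_mod_cast hcE
  have hs0 : 0 < s := lt_of_le_of_lt hθ0 hθs
  have h2 : (1 + η) * (n1 * α) / Real.log 2 + 1 ≤ s * ((n2 * α - B) / Real.log 2 - 1) := by
    have h3 : (1 + η) * (n1 * α) + Real.log 2 ≤ s * (n2 * α - B - Real.log 2) := by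
      have h4 : (1 + η) * (n1 * α) ≤ (1 + η) * (θ * n2 * α) := by gcongr
      have h5 : n2 * gap = s * (n2 * α) - (1 + η) * (θ * n2 * α) := by rw [hgap]; ring
      nlinarith
    have e1 : (1 + η) * (n1 * α) / Real.log 2 + 1 =
        ((1 + η) * (n1 * α) + Real.log 2) / Real.log 2 := by field_simp
    have e2 : s * ((n2 * α - B) / Real.log 2 - 1) =
        (s * (n2 * α - B - Real.log 2)) / Real.log 2 := by field_simp
    rw [e1, e2]
    gcongr
  have h3 : s * ((n2 * α - B) / Real.log 2 - 1) ≤ s * N := by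
    apply mul_le_mul_of_nonneg_left _ hs0.le
    linarith
  linarith

end

end Pool.Agent.Q99.WS
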