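import Pool.Agent.Q99.WS.Low

/-!
The exact dimension.
-/

set_option autoImplicit false

open MeasureTheory Filter Topology Set
open scoped ENNReal

namespace Pool.Agent.Q99.WS

open Pool.Agent.W764.FB Pool.Agent.W764.SH Pool.Agent.W764.HL
open Pool.Agent.Y314.FD (cantor free zero_run free_dim)

section
variable {p q : ℕ} (hp : 2 ≤ p) (hq : 2 ≤ q) (hpq : Nat.Coprime p q)
include hp hq hpq

lemma cantor_sub {s : ℝ} {R a b G : ℕ} [NeZero (p ^ (R + 1))]
    (hbm : 2 * p ^ R ≤ p ^ (R + 1)) (ha : 1 ≤ a) (hab : a < b) (hG : 2 ≤ G)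
    (has : (a : ℝ) / b < s) :
    cantor (m := p ^ (R + 1)) (b := p ^ R) hbm (free a b G) ⊆
      {x : T | ∃ ε : ℝ, 0 < ε ∧ ∀ H0 : ℕ, ∃ H : ℕ, H0 ≤ H ∧ lowD p q ε H x ≤ s} := by
  intro x hx
  have hbR : (0 : ℝ) < b := by
    have : 0 < b := by omega
    exact_mod_cast this
  refine lowD_le hp hq hpq (θ := (a : ℝ) / b) (by positivity) has fun K => ?_
  have hKG : K < G ^ K := Nat.lt_pow_self (by omega)
  have h1 : G ^ K ≤ a * G ^ K := Nat.le_mul_of_pos_left _ (by omega)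
  have h2 : a * G ^ K ≤ (R + 1) * (a * G ^ K) := Nat.le_mul_of_pos_left _ (by omega)
  have h3 : a * G ^ K ≤ b * G ^ K := Nat.mul_le_mul_right _ hab.le
  refine ⟨(R + 1) * (a * G ^ K), (R + 1) * (b * G ^ K), by omega, Nat.mul_le_mul_left _ h3, ?_, ?_⟩
  · push_cast
    apply le_of_eq
    field_simp
  · have h4 := zero_run hp hbm hx K
    rwa [Nat.mul_sub] at h4

/-- **Lower bound of the dimension.** -/
theorem dim_lower {s : ℝ} (hs1 : s ≤ 1) :
    ENNReal.ofReal s ≤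
      dimH {x : T | ∃ ε : ℝ, 0 < ε ∧ ∀ H0 : ℕ, ∃ H : ℕ, H0 ≤ H ∧ lowD p q ε H x ≤ s} := by
  refine le_of_forall_lt_imp_le_of_dense fun c hc => ?_
  have hcfin : c ≠ ∞ := ne_top_of_lt hc
  set c' : ℝ := c.toReal with hc'
  have hc'0 : 0 ≤ c' := ENNReal.toReal_nonneg
  have hc's : c' < s := by
    rw [← ENNReal.ofReal_toReal hcfin] at hc
    exact (ENNReal.ofReal_lt_ofReal_iff_of_nonneg hc'0).1 hc
  obtain ⟨w, hw1, hw2⟩ := exists_rat_btwn hc's
  have hw0 : (0 : ℝ) < w := lt_of_le_of_lt hc'0 hw1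
  have hw0' : 0 < w := by exact_mod_cast hw0
  have hnum : 0 < w.num := Rat.num_pos.2 hw0'
  set a : ℕ := w.num.toNat with ha
  set b : ℕ := w.den with hb
  have haR : (a : ℝ) = w.num := by
    have : ((w.num.toNat : ℕ) : ℤ) = w.num := Int.toNat_of_nonneg hnum.le
    exact_mod_cast this
  have hab : (w : ℝ) = a / b := by
    rw [haR]; exact_mod_cast (Rat.num_div_den w).symm
  have ha1 : 1 ≤ a := by omega
  have hb1 : 0 < b := w.den_pos
  have hbR : (0 : ℝ) < b := by exact_mod_cast hb1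
  have hablt : a < b := by
    have h1 : (a : ℝ) / b < 1 := by rw [← hab]; linarith
    rw [div_lt_one hbR] at h1
    exact_mod_cast h1
  have haRp : (0 : ℝ) < a := by exact_mod_cast ha1
  obtain ⟨G0, hG0⟩ := exists_nat_ge (2 / ((w : ℝ) - c'))
  set G : ℕ := G0 + b + 2 with hG
  have hGR : 2 / ((w : ℝ) - c') ≤ G := by
    refine hG0.trans ?_
    exact_mod_cast (by omega : G0 ≤ G)
  have hGpos : (0 : ℝ) < G := by
    have : 0 < G := by omega
    exact_mod_cast this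
  have hGb : b < G * a := by
    calc b < G := by omega
      _ = G * 1 := (mul_one G).symm
      _ ≤ G * a := Nat.mul_le_mul_left _ ha1
  have hne : NeZero (p ^ (G + 1)) := ⟨by positivity⟩
  have hbm : 2 * p ^ G ≤ p ^ (G + 1) := by
    have e : p ^ (G + 1) = p * p ^ G := pow_succ' _ _
    rw [e]
    exact Nat.mul_le_mul_right _ hp
  have h1 := free_dim (G := G) ha1 hablt hGb (p := p) (R := G) hp (by omega) hbm
  have h2 := dimH_mono (cantor_sub hp hq hpq (s := s) (R := G) (a := a) (b := b) (G := G) hbm ha1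
    hablt (by omega) (by rw [← hab]; exact hw2))
  refine le_trans ?_ (h1.trans h2)
  rw [← ENNReal.ofReal_toReal hcfin]
  apply ENNReal.ofReal_le_ofReal
  rw [← hc']
  have hwc : 0 < (w : ℝ) - c' := by linarith
  have h3 : 2 / (G : ℝ) ≤ w - c' := by
    rw [div_le_iff₀ hwc] at hGR
    rw [div_le_iff₀ hGpos]
    linarith
  have hw1' : (w : ℝ) ≤ 1 := by linarith
  have h4 : (G : ℝ) * (G * a - b) / ((G + 1) * (G * b)) = G / (G + 1) * (w - 1 / G) := by
    rw [hab]; field_simp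
  rw [h4]
  have h5 : (G : ℝ) / (G + 1) * (w - 1 / G) = w - (w + 1) / (G + 1) := by
    field_simp
    ring
  rw [h5]
  have h6 : ((w : ℝ) + 1) / (G + 1) ≤ 2 / G := by
    rw [div_le_div_iff₀ (by positivity) hGpos]
    nlinarith
  linarith

/-- **The dimension spectrum of the lower density of the equidistributed windows.** -/
theorem spectrum {s : ℝ} (hs0 : 0 ≤ s) (hs1 : s ≤ 1) :
    dimH {x : T | ∃ ε : ℝ, 0 < ε ∧ ∀ H0 : ℕ, ∃ H : ℕ, H0 ≤ H ∧ lowD p q ε H x ≤ s} =
      ENNReal.ofReal s :=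
  le_antisymm (dim_upper hp hq hpq hs0) (dim_lower hp hq hpq hs1)

end

end Pool.Agent.Q99.WS
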