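import Pool.Agent.Q99.WS.Core
import Pool.Agent.Y314.FD.DimUp

/-!
Upper bounds: Hausdorff dimension, packing dimension, window-generic points.
-/

set_option autoImplicit false

open MeasureTheory Filter Topology Set
open scoped ENNReal

namespace Pool.Agent.Q99.WS

open Pool.Agent.W764.FB Pool.Agent.W764.SH Pool.Agent.W764.HL

/-- lower density of the equidistributed windows -/
noncomputable def lowD (p q : ℕ) (ε H : ℝ) (x : T) : ℝ :=
  liminf (fun N : ℕ => (cE p q ε H N x : ℝ) / N) atTop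

/-- upper density of the equidistributed windows -/
noncomputable def uppD (p q : ℕ) (ε H : ℝ) (x : T) : ℝ :=
  limsup (fun N : ℕ => (cE p q ε H N x : ℝ) / N) atTop

/-- the packing dimension of `E` is at most `s` -/
def PackLE (E : Set T) (s : ℝ) : Prop :=
  ∀ s' : ℝ, s < s' → ∃ A : ℕ → Set T, E ⊆ ⋃ j, A j ∧ ∀ j, ∃ C : ℝ, ∀ N : ℕ, 1 ≤ N →
    ∃ F : Finset T, (F.card : ℝ) ≤ C * (N : ℝ) ^ s' ∧ ∀ x ∈ A j, ∃ y ∈ F, dist x y ≤ 1 / N

lemma cE_le (p q : ℕ) (ε H : ℝ) (N : ℕ) (x : T) : cE p q ε H N x ≤ N := by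
  classical
  unfold cE
  refine (Finset.card_filter_le _ _).trans ?_
  rw [Finset.card_range]

lemma ratio_le (p q : ℕ) (ε H : ℝ) (N : ℕ) (x : T) : (cE p q ε H N x : ℝ) / N ≤ 1 := by
  rcases Nat.eq_zero_or_pos N with h | h
  · rw [h]; simp
  · rw [div_le_one (by exact_mod_cast h)]
    exact_mod_cast cE_le p q ε H N x

lemma ratio_nonneg (p q : ℕ) (ε H : ℝ) (N : ℕ) (x : T) : 0 ≤ (cE p q ε H N x : ℝ) / N := by
  positivity

lemma cE_mono {p q : ℕ} {ε ε' H : ℝ} (he : ε ≤ ε') (N : ℕ) (x : T) :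
    cE p q ε H N x ≤ cE p q ε' H N x := by
  classical
  unfold cE
  refine Finset.card_le_card fun k hk => ?_
  rw [Finset.mem_filter] at hk ⊢
  exact ⟨hk.1, hk.2.mono he⟩

lemma lowD_mono {p q : ℕ} {ε ε' H : ℝ} (he : ε ≤ ε') (x : T) :
    lowD p q ε H x ≤ lowD p q ε' H x := by
  unfold lowD
  refine liminf_le_liminf (Eventually.of_forall fun N => ?_)
    (isBoundedUnder_of_eventually_ge (Eventually.of_forall fun N => ratio_nonneg p q ε H N x))
    (IsBoundedUnder.isCoboundedUnder_ge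
      (isBoundedUnder_of_eventually_le (Eventually.of_forall fun N => ratio_le p q ε' H N x)))
  have := cE_mono (p := p) (q := q) (H := H) he N x
  exact div_le_div_of_nonneg_right (by exact_mod_cast this) (Nat.cast_nonneg _)

lemma uppD_mono {p q : ℕ} {ε ε' H : ℝ} (he : ε ≤ ε') (x : T) :
    uppD p q ε H x ≤ uppD p q ε' H x := by
  unfold uppD
  refine limsup_le_limsup (Eventually.of_forall fun N => ?_)
    (IsBoundedUnder.isCoboundedUnder_le
      (isBoundedUnder_of_eventually_ge (Eventually.of_forall fun N => ratio_nonneg p q ε H N x)))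
    (isBoundedUnder_of_eventually_le (Eventually.of_forall fun N => ratio_le p q ε' H N x))
  have := cE_mono (p := p) (q := q) (H := H) he N x
  exact div_le_div_of_nonneg_right (by exact_mod_cast this) (Nat.cast_nonneg _)

section
variable {p q : ℕ} (hp : 2 ≤ p) (hq : 2 ≤ q) (hpq : Nat.Coprime p q)
include hp hq hpq

/-- one level -/
lemma dim_level {ε : ℝ} (hε : 0 < ε) {s' s'' : ℝ} (h0 : 0 ≤ s') (h1 : s' < s'') :
    ∃ H0 : ℝ, ∀ H : ℝ, H0 ≤ H → dimH {x : T | lowD p q ε H x < s'} ≤ ENNReal.ofReal s'' := by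
  obtain ⟨H0, -, h⟩ := core_cover hp hq hpq hε h0 h1
  refine ⟨H0, fun H hH => ?_⟩
  obtain ⟨N0, hN0⟩ := h H hH
  have h2 : ∀ N : ℕ, ∃ F : Finset T, N0 ≤ N → (F.card : ℝ) ≤ (1 / 2 : ℝ) ^ (-(s'' * N)) ∧ ∀ x : T,
      (cE p q ε H N x : ℝ) < s' * N → ∃ y ∈ F, dist x y ≤ (1 / 2 : ℝ) ^ N := by
    intro N
    by_cases hN : N0 ≤ N
    · obtain ⟨F, hF⟩ := hN0 N hN
      exact ⟨F, fun _ => hF⟩
    · exact ⟨∅, fun h => absurd h hN⟩
  choose F hF using h2
  refine Pool.Agent.Y314.FD.dimH_le_of_balls _ F (b := 1 / 2) (s := s'') (v0 := N0) (by norm_num)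
    (by norm_num) (by linarith) (fun v hv => (hF v hv).1) ?_
  intro x hx
  have h3 : ∃ᶠ N : ℕ in atTop, (cE p q ε H N x : ℝ) / N < s' :=
    frequently_lt_of_liminf_lt (IsBoundedUnder.isCoboundedUnder_ge
      (isBoundedUnder_of_eventually_le (Eventually.of_forall fun N => ratio_le p q ε H N x))) hx
  refine (h3.and_eventually (eventually_ge_atTop (max N0 1))).mono ?_
  rintro N ⟨h4, h5⟩
  have h6 : N0 ≤ N := (le_max_left _ _).trans h5
  have h7 : 1 ≤ N := (le_max_right _ _).trans h5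
  have h8 : (0 : ℝ) < N := by exact_mod_cast h7
  rw [div_lt_iff₀ h8] at h4
  exact (hF N h6).2 x h4

/-- **Upper bound of the Hausdorff dimension.** -/
theorem dim_upper {s : ℝ} (hs : 0 ≤ s) :
    dimH {x : T | ∃ ε : ℝ, 0 < ε ∧ ∀ H0 : ℕ, ∃ H : ℕ, H0 ≤ H ∧ lowD p q ε H x ≤ s} ≤
      ENNReal.ofReal s := by
  have key : ∀ s2 : ℝ, s < s2 →
      dimH {x : T | ∃ ε : ℝ, 0 < ε ∧ ∀ H0 : ℕ, ∃ H : ℕ, H0 ≤ H ∧ lowD p q ε H x ≤ s} ≤
        ENNReal.ofReal s2 := by
    intro s2 hs2
    have h := fun n : ℕ => dim_level hp hq hpq (ε := 1 / ((n : ℝ) + 1)) (by positivity)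
      (s' := (s + s2) / 2) (s'' := s2) (by linarith) (by linarith)
    choose H0 hH0 using h
    have hsub : {x : T | ∃ ε : ℝ, 0 < ε ∧ ∀ H0 : ℕ, ∃ H : ℕ, H0 ≤ H ∧ lowD p q ε H x ≤ s} ⊆
        ⋃ n : ℕ, ⋃ H : ℕ, ⋃ _ : H0 n ≤ H,
          {x : T | lowD p q (1 / ((n : ℝ) + 1)) H x < (s + s2) / 2} := by
      rintro x ⟨ε, hε, hx⟩
      obtain ⟨n, hn⟩ := exists_nat_one_div_lt hε
      obtain ⟨H1, hH1⟩ := exists_nat_ge (H0 n)
      obtain ⟨H, hH, hxH⟩ := hx H1
      simp only [mem_iUnion]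
      refine ⟨n, H, hH1.trans (by exact_mod_cast hH), ?_⟩
      have h1 := lowD_mono (p := p) (q := q) (H := (H : ℝ)) hn.le x
      show lowD p q (1 / ((n : ℝ) + 1)) H x < (s + s2) / 2
      linarith
    refine (dimH_mono hsub).trans ?_
    rw [dimH_iUnion]
    refine iSup_le fun n => ?_
    rw [dimH_iUnion]
    refine iSup_le fun H => ?_
    rw [dimH_iUnion]
    exact iSup_le fun hH => hH0 n H hH
  refine ENNReal.le_of_forall_pos_le_add fun e he _ => ?_
  refine (key (s + e) (by linarith [NNReal.coe_pos.2 he])).trans ?_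
  refine ENNReal.ofReal_add_le.trans ?_
  rw [ENNReal.ofReal_coe_nnreal]

/-- **Upper bound of the packing dimension.** -/
theorem pack_upper {s : ℝ} (hs : 0 ≤ s) :
    PackLE {x : T | ∃ ε : ℝ, 0 < ε ∧ ∀ H0 : ℕ, ∃ H : ℕ, H0 ≤ H ∧ uppD p q ε H x ≤ s} s := by
  intro s2 hs2
  have h := fun n : ℕ => core_cover hp hq hpq (ε := 1 / ((n : ℝ) + 1)) (by positivity)
    (s' := (s + s2) / 2) (s'' := s2) (by linarith) (by linarith)
  choose H0 hH01 hH0 using h
  set e := (Denumerable.eqv (ℕ × ℕ × ℕ)).symm with he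
  set A : ℕ → Set T := fun j => {x : T | H0 (e j).1 ≤ (((e j).2.1 : ℕ) : ℝ) ∧
    ∀ N : ℕ, (e j).2.2 ≤ N → (cE p q (1 / (((e j).1 : ℝ) + 1)) ((e j).2.1 : ℕ) N x : ℝ) <
      (s + s2) / 2 * N} with hA
  refine ⟨A, ?_, fun j => ?_⟩
  · rintro x ⟨ε, hε, hx⟩
    obtain ⟨n, hn⟩ := exists_nat_one_div_lt hε
    obtain ⟨H1, hH1⟩ := exists_nat_ge (H0 n)
    obtain ⟨H, hH, hxH⟩ := hx H1
    have h1 := uppD_mono (p := p) (q := q) (H := (H : ℝ)) hn.le x
    have h2 : limsup (fun N : ℕ => (cE p q (1 / ((n : ℝ) + 1)) H N x : ℝ) / N) atTop <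
        (s + s2) / 2 := by
      show uppD p q (1 / ((n : ℝ) + 1)) H x < (s + s2) / 2
      linarith
    have h3 := eventually_lt_of_limsup_lt h2
      (isBoundedUnder_of_eventually_le (Eventually.of_forall fun N => ratio_le p q _ _ N x))
    obtain ⟨N1, hN1⟩ := eventually_atTop.1 h3
    rw [mem_iUnion]
    refine ⟨Denumerable.eqv (ℕ × ℕ × ℕ) (n, H, max N1 1), ?_⟩
    rw [hA]
    simp only [he, Equiv.symm_apply_apply, mem_ofPred_eq]
    refine ⟨hH1.trans (by exact_mod_cast hH), fun N hN => ?_⟩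
    have h4 := hN1 N ((le_max_left _ _).trans hN)
    have h5 : (0 : ℝ) < N := by
      have : 1 ≤ N := (le_max_right _ _).trans hN
      exact_mod_cast this
    rwa [div_lt_iff₀ h5] at h4
  · by_cases hH : H0 (e j).1 ≤ (((e j).2.1 : ℕ) : ℝ)
    · obtain ⟨N0, hN0⟩ := hH0 (e j).1 _ hH
      set M0 : ℕ := max N0 (e j).2.2 with hM0
      refine ⟨((2 : ℝ) ^ (M0 + 1)) ^ s2, fun N hN => ?_⟩
      set M : ℕ := M0 + (Nat.log 2 N + 1) with hM
      obtain ⟨F, hF, hF'⟩ := hN0 M (by omega)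
      have hlow : (N : ℝ) ≤ 2 ^ M := by
        have h1 : N < 2 ^ (Nat.log 2 N + 1) := Nat.lt_pow_succ_log_self (by norm_num) N
        have h2 : 2 ^ (Nat.log 2 N + 1) ≤ 2 ^ M := Nat.pow_le_pow_right (by norm_num) (by omega)
        exact_mod_cast (h1.le.trans h2)
      have hupp : (2 : ℝ) ^ M ≤ 2 ^ (M0 + 1) * N := by
        have h1 : 2 ^ Nat.log 2 N ≤ N := Nat.pow_log_le_self 2 (by omega)
        have h2 : 2 ^ M = 2 ^ (M0 + 1) * 2 ^ Nat.log 2 N := by
          rw [← pow_add]; congr 1; omega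
        have h3 : 2 ^ M ≤ 2 ^ (M0 + 1) * N := by
          rw [h2]; exact Nat.mul_le_mul_left _ h1
        exact_mod_cast h3
      refine ⟨F, hF.trans ?_, fun x hx => ?_⟩
      · have e1 : (1 / 2 : ℝ) ^ (-(s2 * M)) = ((2 : ℝ) ^ M) ^ s2 := by
          rw [one_div, Real.inv_rpow (by norm_num), Real.rpow_neg (by norm_num), inv_inv,
            mul_comm s2, Real.rpow_mul (by norm_num), Real.rpow_natCast]
        rw [e1, ← Real.mul_rpow (by positivity) (by positivity)]
        exact Real.rpow_le_rpow (by positivity) hupp (by linarith)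
      · obtain ⟨y, hy, hxy⟩ := hF' x (hx.2 M (by omega))
        refine ⟨y, hy, hxy.trans ?_⟩
        rw [one_div_pow]
        have hN0 : (0 : ℝ) < N := by exact_mod_cast hN
        exact one_div_le_one_div_of_le hN0 hlow
    · refine ⟨1, fun N hN => ⟨∅, by simp; positivity, fun x hx => ?_⟩⟩
      exact absurd hx.1 hH

omit hpq in
/-- arcs from genericity, full strength -/
lemma arc_lower' {μ : Measure T} [IsProbabilityMeasure μ] {x : T} (hg : WGen p q μ x)
    (hx : ∀ ε : ℝ, 0 < ε → ∃ H0 : ℕ, ∀ H : ℕ, H0 ≤ H → ∀ X0 : ℝ, ∃ X : ℝ, X0 ≤ X ∧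
      Eqd p q ε H X x)
    (c : T) {r : ℝ} (hr0 : 0 ≤ r) (hr : r ≤ 1 / 2) : 2 * r ≤ μ.real (Metric.closedBall c r) := by
  classical
  refine le_of_forall_pos_le_add fun e he => ?_
  rcases le_or_gt r (e / 4) with h0 | h0
  · have : 0 ≤ μ.real (Metric.closedBall c r) := measureReal_nonneg
    linarith
  set r' : ℝ := r - e / 4 with hr'
  have hr'0 : 0 ≤ r' := by linarith
  set f : T → ℝ := fun y => max 0 (min 1 (1 - (‖y - c‖ - r') / (e / 4))) with hf
  have hfc : Continuous f := by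
    rw [hf]
    exact continuous_const.max (continuous_const.min (continuous_const.sub
      (((continuous_id.sub continuous_const).norm.sub continuous_const).div_const _)))
  have hf0 : ∀ y, 0 ≤ f y := fun y => le_max_left _ _
  have hf1 : ∀ y, f y ≤ 1 := fun y => max_le zero_le_one (min_le_left _ _)
  have hfin : ∀ y, ‖y - c‖ ≤ r' → f y = 1 := by
    intro y hy
    simp only [hf]
    have h1 : (‖y - c‖ - r') / (e / 4) ≤ 0 :=
      div_nonpos_of_nonpos_of_nonneg (by linarith) (by positivity)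
    rw [min_eq_left (by linarith), max_eq_right zero_le_one]
  have hfout : ∀ y, y ∉ Metric.closedBall c r → f y = 0 := by
    intro y hy
    rw [Metric.mem_closedBall, dist_eq_norm, not_le] at hy
    simp only [hf]
    have h1 : 1 ≤ (‖y - c‖ - r') / (e / 4) := by
      rw [le_div_iff₀ (by positivity)]; linarith
    have h2 : min 1 (1 - (‖y - c‖ - r') / (e / 4)) ≤ 0 := (min_le_right _ _).trans (by linarith)
    exact max_eq_left h2
  have hint : ∫ y, f y ∂μ ≤ μ.real (Metric.closedBall c r) := by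
    have hm : MeasurableSet (Metric.closedBall c r) := measurableSet_closedBall
    calc ∫ y, f y ∂μ ≤ ∫ y, (Metric.closedBall c r).indicator (fun _ => (1 : ℝ)) y ∂μ := by
          refine integral_mono (Pool.Agent.H847R3.XpXq.integrable_of_cont hfc μ)
            ((integrable_const 1).indicator hm) fun y => ?_
          by_cases hy : y ∈ Metric.closedBall c r
          · rw [indicator_of_mem hy]; exact hf1 y
          · rw [indicator_of_notMem hy, hfout y hy]
      _ = μ.real (Metric.closedBall c r) := by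
          rw [integral_indicator hm, setIntegral_const, smul_eq_mul, mul_one]
  obtain ⟨H1, hH1⟩ := hg f hfc (e / 4) (by positivity)
  obtain ⟨H2, hH2⟩ := hx (e / 4) (by positivity)
  obtain ⟨H3, hH31, hH32⟩ : ∃ H3, H1 ≤ H3 ∧ H2 ≤ H3 :=
    ⟨max H1 H2, le_max_left _ _, le_max_right _ _⟩
  obtain ⟨X0, hX0⟩ := hH1 H3 hH31
  obtain ⟨X, hX, hne, hv⟩ := hH2 H3 hH32 X0
  have h1 := hX0 X hX
  have h2 := hv c r' hr'0 (by linarith)
  set W := win p q X (H3 * X) with hW
  have hWR : (0 : ℝ) < W.card := by exact_mod_cast hne.card_pos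
  have h3 : (vis p q X (H3 * X) x c r' : ℝ) ≤ ∑ n ∈ W, f (n • x) := by
    unfold vis
    rw [Finset.card_filter]
    push_cast
    refine Finset.sum_le_sum fun n _ => ?_
    split_ifs with hn
    · rw [hfin _ hn]
    · exact hf0 _
  rw [abs_le] at h1 h2
  have h4 : (2 * r' - e / 4) * W.card ≤ (∫ y, f y ∂μ + e / 4) * W.card := by
    linarith [h1.2, h2.1]
  have h5 := le_of_mul_le_mul_right h4 hWR
  linarith

omit hp hq hpq in
/-- lower bounds for arcs identify Lebesgue measure -/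
lemma eq_vol {μ : Measure T} [IsProbabilityMeasure μ]
    (h : ∀ c : T, ∀ r : ℝ, 0 ≤ r → r ≤ 1 / 2 → 2 * r ≤ μ.real (Metric.closedBall c r)) :
    μ = volume := by
  have hle : ∀ s : Set T, (volume : Measure T) s ≤ μ s := by
    intro s
    set v := IsUnifLocDoublingMeasure.vitaliFamily (volume : Measure T) 1 with hv
    refine v.measure_le_of_frequently_le (ρ := (volume : Measure T)) μ
      Measure.AbsolutelyContinuous.rfl s ?_
    intro x _
    have h2 : Tendsto (fun δ : ℝ => Metric.closedBall x δ) (𝓝[>] 0) (v.filterAt x) :=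
      IsUnifLocDoublingMeasure.tendsto_closedBall_filterAt (volume : Measure T) (fun _ => x)
        (fun δ => δ) tendsto_id (by
          filter_upwards [self_mem_nhdsWithin] with δ hδ
          rw [one_mul]
          exact Metric.mem_closedBall_self (le_of_lt hδ))
    refine h2.frequently (Eventually.frequently ?_)
    have h3 : ∀ᶠ δ : ℝ in 𝓝[>] 0, δ < 1 / 2 :=
      nhdsWithin_le_nhds (gt_mem_nhds (by norm_num))
    filter_upwards [self_mem_nhdsWithin, h3] with δ hδ hδ2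
    have hδ0 : 0 < δ := hδ
    rw [AddCircle.volume_closedBall, min_eq_right (by linarith)]
    exact (ENNReal.ofReal_le_iff_le_toReal (measure_ne_top _ _)).2 (h x δ hδ0.le hδ2.le)
  ext s hs
  refine le_antisymm ?_ (hle s)
  have h1 := hle sᶜ
  have h2 : μ s + μ sᶜ = 1 := by rw [measure_add_measure_compl hs, measure_univ]
  have h3 : (volume : Measure T) s + (volume : Measure T) sᶜ = 1 := by
    rw [measure_add_measure_compl hs, measure_univ]
  have h4 : μ s + (volume : Measure T) sᶜ ≤ (volume : Measure T) s + (volume : Measure T) sᶜ := by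
    rw [h3, ← h2]
    gcongr
  exact (ENNReal.add_le_add_iff_right (measure_ne_top _ _)).1 h4

omit hpq in
/-- **Window-generic points.** -/
theorem generic_sub : {x : T | ∃ μ : Measure T, IsProbabilityMeasure μ ∧ μ ≠ volume ∧
    WGen p q μ x} ⊆
    {x : T | ∃ ε : ℝ, 0 < ε ∧ ∀ H0 : ℕ, ∃ H : ℕ, H0 ≤ H ∧ uppD p q ε H x ≤ 0} := by
  classical
  rintro x ⟨μ, hμ, hne, hg⟩
  by_contra hcon
  simp only [mem_ofPred_eq, not_exists, not_and, not_forall] at hcon
  apply hne
  refine eq_vol fun c r hr0 hr => arc_lower' hp hq hg ?_ c hr0 hr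
  intro ε hε
  obtain ⟨H0, hH0⟩ := hcon ε hε
  refine ⟨H0, fun H hH X0 => ?_⟩
  have h1 := not_le.1 (hH0 H hH)
  by_contra hno
  push Not at hno
  obtain ⟨k0, hk0⟩ := pow_unbounded_of_one_lt X0 (by norm_num : (1 : ℝ) < 2)
  have h2 : ∀ N, cE p q ε H N x ≤ k0 := by
    intro N
    unfold cE
    have h3 : ((Finset.range N).filter fun k => Eqd p q ε H ((2 : ℝ) ^ k) x) ⊆
        Finset.range k0 := by
      intro k hk
      rw [Finset.mem_filter] at hk
      rw [Finset.mem_range]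
      by_contra hlt
      push Not at hlt
      refine hno ((2 : ℝ) ^ k) (hk0.le.trans ?_) hk.2
      exact pow_le_pow_right₀ (by norm_num) hlt
    have := Finset.card_le_card h3
    rwa [Finset.card_range] at this
  have h3 : Tendsto (fun N : ℕ => (cE p q ε H N x : ℝ) / N) atTop (𝓝 0) := by
    refine squeeze_zero (fun N => ratio_nonneg p q ε H N x) (g := fun N : ℕ => (k0 : ℝ) / N)
      (fun N => ?_) (tendsto_const_div_atTop_nhds_zero_nat _)
    have := h2 N
    gcongr
  have h4 : uppD p q ε H x = 0 := h3.limsup_eq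
  rw [h4] at h1
  exact lt_irrefl _ h1

end

end Pool.Agent.Q99.WS
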